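import Mathlib
import Pool.Agent.Helper47.Chow.OffMiddleDef
import Pool.Agent.Helper47.Desc.Defs

/-!
# Zero loci of generic sections: the definitions used in the statements

Sections `s_l`, `l ∈ I`, of a vector bundle of rank `r` on a scheme `Y` are given by their
coordinates `f i q l`, `q < r`, in trivialisations over the members `U i` of an affine open cover.
For elements `a_l` of a field `K` and morphisms `p : Z ⟶ Y`, `s : Z ⟶ Spec K`, the section
`∑ a_l s_l` has a pull-back to `Z`; the zero locus is the scheme which represents the pairs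
`(p, s)` on which it vanishes.
-/

universe u v w

open CategoryTheory AlgebraicGeometry Limits

namespace Pool.Agent.Helper47.Zero

open Pool.Agent.Helper10 Pool.Agent.Helper10.SmProjVar Pool.Agent.Helper47.Chow
open Pool.Agent.Helper47.Desc

noncomputable section

section Functions

/-- The value of a ring homomorphism. -/
def val {A B : CommRingCat.{u}} (f : A ⟶ B) (x : A) : B := f.hom x

/-- The value of a morphism of schemes at a point. -/
def img {Z Y : Scheme.{u}} (f : Z ⟶ Y) (z : Z) : Y := f z

/-- The ring of functions on an open subset. -/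
def Fn (Z : Scheme.{u}) (W : Z.Opens) : Type u := Γ(Z, W)

instance instCommRingFn (Z : Scheme.{u}) (W : Z.Opens) : CommRing (Fn Z W) :=
  (Z.presheaf.obj (Opposite.op W)).commRing

/-- The restriction of functions to a smaller open subset. -/
def res {Z : Scheme.{u}} {V W : Z.Opens} (h : V ≤ W) (f : Fn Z W) : Fn Z V :=
  val (Z.presheaf.map (homOfLE h).op) f

/-- The pull-back of functions. -/
def pb {Z Y : Scheme.{u}} (p : Z ⟶ Y) {W : Y.Opens} (f : Fn Y W) : Fn Z (p ⁻¹ᵁ W) :=
  val (p.app W) f

/-- An element of `K` as a function on an open subset `W` of a scheme over `Spec K`. -/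
def const {K : Type u} [Field K] {Z : Scheme.{u}} (s : Z ⟶ Spec (CommRingCat.of K))
    (W : Z.Opens) (c : K) : Fn Z W :=
  val ((Scheme.ΓSpecIso (CommRingCat.of K)).inv ≫ s.appTop ≫
    Z.presheaf.map (homOfLE (le_top : W ≤ ⊤)).op) c

/-- The linear combination `∑ c_l x_l`. -/
def comb {R : Type u} [CommRing R] {I : Type} [Fintype I] (c x : I → R) : R := ∑ l, c l * x l

/-- The determinant. -/
def det {R : Type u} [CommRing R] {r : ℕ} (c : Fin r ⊕ Fin r → Fin r ⊕ Fin r → R) : R :=
  Matrix.det (Matrix.of c)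

/-- The function `f` does not vanish at the point `x`. -/
def NonzeroAt {Z : Scheme.{u}} {W : Z.Opens} (f : Fn Z W) (x : Z) : Prop := x ∈ Z.basicOpen f

/-- The morphism `Spec K ⟶ Spec F`. -/
def specMap (F K : Type u) [Field F] [Field K] [Algebra F K] :
    Spec (CommRingCat.of K) ⟶ Spec (CommRingCat.of F) :=
  Spec.map (CommRingCat.ofHom (algebraMap F K))

end Functions

section Sections

/-- The coordinates `f'` over `V'` are obtained from the coordinates `f` over `V` by a transition
matrix. -/
def Glue {Y : Scheme.{u}} {r : ℕ} {I : Type} {V V' : Y.Opens} (f : Fin r → I → Fn Y V)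
    (f' : Fin r → I → Fn Y V') : Prop :=
  ∃ G : Fin r → Fin r → Fn Y (V ⊓ V'), ∀ q l,
    res inf_le_right (f' q l) = comb (G q) fun q' => res inf_le_left (f q' l)

/-- Sections `s_l`, `l ∈ I`, of a vector bundle of rank `r` on `Y`: `U i` is an affine open cover,
`f i q l` (`q < r`) are the coordinates of `s_l` in a trivialisation over `U i`, and the
coordinates over `U i` and `U i'` are related by transition matrices. -/
structure Sections (Y : Scheme.{u}) (r : ℕ) (I : Type) where
  ι : Type u
  U : ι → Y.Opens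
  affine : ∀ i, IsAffineOpen (U i)
  cover : ∀ x : Y, ∃ i, x ∈ U i
  f : ∀ i, Fin r → I → Fn Y (U i)
  glue : ∀ i i', Glue (f i) (f i')

variable {Y : Scheme.{u}} {r : ℕ} {I : Type}

/-- The coordinates of the `s_l` at the points `p x` and `p' x`, as functions of `x ∈ P`. -/
def coord (S : Sections Y r I) {P : Scheme.{u}} (p p' : P ⟶ Y) (i i' : S.ι) :
    Fin r ⊕ Fin r → I → Fn P (p ⁻¹ᵁ S.U i ⊓ p' ⁻¹ᵁ S.U i') :=
  Sum.elim (fun q l => res inf_le_left (pb p (S.f i q l)))
    fun q l => res inf_le_right (pb p' (S.f i' q l))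

/-- The points `p x` and `p' x` impose `2 r` independent conditions on the combinations of the
`s_l`: a `2 r × 2 r`-minor of the matrix of the coordinates is not zero at `x`. -/
def SeparatesAt (S : Sections Y r I) {P : Scheme.{u}} (p p' : P ⟶ Y) (x : P) : Prop :=
  ∃ (i i' : S.ι) (J : Fin r ⊕ Fin r → I), NonzeroAt (det fun c c' => coord S p p' i i' c (J c')) x

variable {F K : Type u} [Field F] [Field K] [Algebra F K] {M₀ : SmProjVar F} [Fintype I]

/-- Any two distinct points of `M₀` impose `2 r` independent conditions on the combinations of the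
`s_l`. -/
def Separates (S : Sections M₀.toOver.left r I) : Prop :=
  ∀ x : (M₀.prod M₀).toOver.left, (¬ ∃ y, img (diag M₀).left y = x) →
    SeparatesAt S (fst M₀ M₀).left (snd M₀ M₀).left x

/-- The pull-back of the section `∑ a_l s_l` to `Z` vanishes. -/
def Vanish (S : Sections Y r I) (a : I → K) {Z : Scheme.{u}} (p : Z ⟶ Y)
    (s : Z ⟶ Spec (CommRingCat.of K)) : Prop :=
  ∀ i q, comb (fun l => const s (p ⁻¹ᵁ S.U i) (a l)) (fun l => pb p (S.f i q l)) = 0

/-- `X`, with the morphisms `π` to `Y` and `t` to `Spec K`, is the zero locus of the section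
`∑ a_l s_l` in the fibre product of `y` and `b : Spec K ⟶ B`. -/
structure IsZeroLocus {X B : Scheme.{u}} (S : Sections Y r I) (a : I → K) (y : Y ⟶ B)
    (b : Spec (CommRingCat.of K) ⟶ B) (π : X ⟶ Y) (t : X ⟶ Spec (CommRingCat.of K)) :
    Prop where
  w : π ≫ y = t ≫ b
  zero : Vanish S a π t
  exists_lift : ∀ (Z : Scheme.{u}) (p : Z ⟶ Y) (s : Z ⟶ Spec (CommRingCat.of K)),
    p ≫ y = s ≫ b → Vanish S a p s → ∃ h : Z ⟶ X, h ≫ π = p ∧ h ≫ t = s
  unique : ∀ (Z : Scheme.{u}) (h h' : Z ⟶ X), h ≫ π = h' ≫ π → h ≫ t = h' ≫ t → h = h'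

end Sections

section Chow

variable {K : Type u} [Field K] {L : Type v} [Field L] [CharZero L]
  {W : WeilCohomology.{u, v, w} K L}

/-- The point `x` lies in the closure of the point `x'`. -/
def Spz {X : SmProjVar K} (x' x : X.Pt) : Prop := Specializes (X := X.toOver.left) x' x

/-- The point `x` of `X` lies over the closure of the point `y` of `Y`. -/
def Above {X Y : SmProjVar K} (f : X.toOver ⟶ Y.toOver) (y : Y.Pt) (x : X.Pt) : Prop :=
  Spz (X := Y) y (img f.left x)

/-- The closure of `x` has the dimension expected for the inverse image of the closure of `y`. -/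
def Expected {X Y : SmProjVar K} (y : Y.Pt) (x : X.Pt) : Prop :=
  X.pointDim x + Y.dim = X.dim + Y.pointDim y

/-- The pull-back of the class of a subvariety is represented by a cycle which is supported on the
inverse image of the subvariety, and has positive coefficients at those irreducible components of
the inverse image which have the expected dimension. -/
def HasSupport (C : ChowTheory W) : Prop :=
  ∀ {X Y : SmProjVar K} (f : X.toOver ⟶ Y.toOver) (y : Y.Pt),
    ∃ z : QCycles X, cls X z = C.ops.pull f (ptCls Y y) ∧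
      (∀ x : X.Pt, z.coeff x ≠ 0 → Above f y x ∧ Expected y x) ∧
      (∀ x : X.Pt, Above f y x → (∀ x' : X.Pt, Spz x' x → Above f y x' → x' = x) →
        Expected y x → 0 < z.coeff x)

variable (C : ChowTheory W) (X : SmProjVar K)

/-- The composition `γ (n - 1) ∘ … ∘ γ 0`. -/
def prodSeq {X : SmProjVar K} (γ : ℕ → CH (X.prod X)) : ℕ → CH (X.prod X)
  | 0 => C.Δ X
  | n + 1 => C.comp (prodSeq γ n) (γ n)

/-- `γ ∈ CH^d(X × X)`, `d = dim X`, is homologically trivial. -/
def HomTriv {X : SmProjVar K} (γ : CH (X.prod X)) : Prop :=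
  γ ∈ CHi (X.prod X) X.dim ∧ C.ops.cl _ γ = 0

/-- The homologically trivial self-correspondences of degree zero of `X` form a nilpotent ring. -/
def NilRing : Prop :=
  ∃ N : ℕ, ∀ γ : ℕ → CH (X.prod X), (∀ i, HomTriv C (γ i)) → prodSeq C γ N = 0

/-- All homologically trivial self-correspondences of degree zero of `X` are nilpotent. -/
def NilHom : Prop :=
  ∀ γ : CH (X.prod X), HomTriv C γ → ∃ n, prodSeq C (fun _ => γ) n = 0

variable (W) in
/-- `x` is an element of `H^j(X)`. -/
def InDeg {X : SmProjVar K} (j : ℕ) (x : W.H X) : Prop := x ∈ W.gr X j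

variable (W) in
/-- The integral of `x y`. -/
def dual {X : SmProjVar K} (x y : W.H X) : L := W.tr X (x * y)

/-- The action of `γ` on `x ∈ H(X)` is the element dual to `y ↦ ∫ p^* x ∪ cl(γ) ∪ q^* y`. -/
def dualAct {X : SmProjVar K} (γ : CH (X.prod X)) (x y : W.H X) : L :=
  W.tr (X.prod X) (W.pull (fst X X) x * C.ops.cl _ γ * W.pull (snd X X) y)

/-- The correspondence `γ` acts as the identity on `H^j(X)`. -/
def ActsAsId {X : SmProjVar K} (γ : CH (X.prod X)) (j : ℕ) : Prop :=
  ∀ x, InDeg W j x → ∀ y : W.H X, dualAct C γ x y = dual W x y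

/-- The correspondence `γ` acts as zero on `H^j(X)`. -/
def ActsAsZero {X : SmProjVar K} (γ : CH (X.prod X)) (j : ℕ) : Prop :=
  ∀ x, InDeg W j x → ∀ y : W.H X, dualAct C γ x y = 0

/-- A Chow-Künneth decomposition of `X`: elements `π 0, …, π (2 d)` of `CH^d(X × X)`, `d = dim X`
(and `π i = 0` for `i > 2 d`), which are orthogonal idempotents with sum the class of the
diagonal, such that `π i` acts as the identity on `H^i(X)` and as `0` on `H^j(X)` for `j ≠ i`. -/
structure IsCK (π : ℕ → CH (X.prod X)) : Prop where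
  mem : ∀ i, π i ∈ CHi (X.prod X) X.dim
  zero : ∀ i, 2 * X.dim < i → π i = 0
  idem : ∀ i, C.comp (π i) (π i) = π i
  orth : ∀ i j, i ≠ j → C.comp (π i) (π j) = 0
  sum : ∑ i ∈ Finset.range (2 * X.dim + 1), π i = C.Δ X
  act_same : ∀ i, ActsAsId C (π i) i
  act_other : ∀ i j, i ≠ j → ActsAsZero C (π i) j

/-- The Künneth components of the diagonal are algebraic. -/
def HasKunneth : Prop :=
  ∀ l, ∃ p ∈ CHi (X.prod X) X.dim, ActsAsId C p l ∧ ∀ m, m ≠ l → ActsAsZero C p m

/-- For every `j < d = dim X` there are algebraic correspondences `u`, `v` of degrees `d - j` and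
`j - d` such that `u ∘ v` is the identity on `H^{2 d - j}(X)`. -/
def HasLefschetz : Prop :=
  ∀ j, j < X.dim → ∃ u ∈ CHi (X.prod X) (2 * X.dim - j), ∃ v ∈ CHi (X.prod X) j,
    ActsAsId C (C.comp v u) (2 * X.dim - j)

/-- A correspondence of degree zero which acts as zero on `H^1(X)` kills the homologically trivial
divisor classes. -/
def HasPicard : Prop :=
  ∀ γ ∈ CHi (X.prod X) X.dim, ActsAsZero C γ 1 → ∀ a ∈ CHi X 1, C.ops.cl X a = 0 → C.act γ a = 0

end Chow

end

end Pool.Agent.Helper47.Zero
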