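import Mathlib
import Pool.Agent.Helper47.Zero.Defs
import Pool.Agent.Helper47.Spread.Final

/-!
# Comparison with the definitions used in the proofs
-/

universe u v w

open CategoryTheory AlgebraicGeometry Limits

namespace Pool.Agent.Helper47.Zero

open Pool.Agent.Helper10 Pool.Agent.Helper10.SmProjVar Pool.Agent.Helper47.Chow
open Pool.Agent.Helper47.Desc

noncomputable section

section Sections

variable {F K : Type u} [Field F] [Field K] [Algebra F K] {M₀ : SmProjVar F} {r : ℕ} {I : Type}

/-- The sections in the form used in the proofs. -/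
def Sections.old (S : Sections M₀.toOver.left r I) : Spread.Sections M₀ r I where
  ι := S.ι
  U := S.U
  affine := S.affine
  cover := S.cover
  f := S.f
  glue := fun i i' => by
    obtain ⟨G, hG⟩ := S.glue i i'
    exact ⟨Matrix.of G, hG⟩

lemma separates_old {S : Sections M₀.toOver.left r I} (h : Separates S) :
    Spread.Separates S.old := by
  intro x hx
  obtain ⟨i, i', J, hJ⟩ := h x hx
  refine ⟨i, i', J, ?_⟩
  have : (Matrix.of fun c c' => Spread.coef S.old i i' c (J c')) =
      Matrix.of fun c c' => coord S (fst M₀ M₀).left (snd M₀ M₀).left i i' c (J c') := by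
    ext c c'
    rcases c with c | c <;> rfl
  rw [this]
  exact hJ

variable [Fintype I]

lemma isZeroLocus_old {S : Sections M₀.toOver.left r I} {a : I → K} {X : SmProjVar K}
    {π : X.toOver.left ⟶ M₀.toOver.left}
    (h : IsZeroLocus S a M₀.toOver.hom (specMap F K) π X.toOver.hom) :
    Spread.IsZeroLocus S.old a X π where
  w := h.w
  zero := h.zero
  exists_lift := h.exists_lift
  unique := h.unique

end Sections

section Chow

variable {K : Type u} [Field K] {L : Type v} [Field L] [CharZero L]
  {W : WeilCohomology.{u, v, w} K L} {C : ChowTheory W} {X : SmProjVar K}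

lemma hasSupport_old (h : HasSupport C) : Spread.HasSupport C :=
  ⟨fun f y => h f y⟩

lemma prodSeq_congr {γ δ : ℕ → CH (X.prod X)} (n : ℕ) (h : ∀ i, i < n → γ i = δ i) :
    prodSeq C γ n = prodSeq C δ n := by
  induction n with
  | zero => rfl
  | succ n ih =>
    change C.comp (prodSeq C γ n) (γ n) = C.comp (prodSeq C δ n) (δ n)
    rw [ih fun i hi => h i (Nat.lt_succ_of_lt hi), h n (Nat.lt_succ_self n)]

lemma compList_eq (l : List (CH (X.prod X))) :
    compList C X l = prodSeq C (fun i => l.reverse.getD i 0) l.length := by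
  induction l with
  | nil => rfl
  | cons γ l ih =>
    change C.comp (compList C X l) γ =
      C.comp (prodSeq C (fun i => (γ :: l).reverse.getD i 0) l.length)
        ((γ :: l).reverse.getD l.length 0)
    have h1 : (γ :: l).reverse.getD l.length 0 = γ := by
      rw [List.reverse_cons, List.getD_append_right _ _ _ _ (by rw [List.length_reverse]),
        List.length_reverse, Nat.sub_self]
      rfl
    rw [h1, ih]
    congr 1
    refine prodSeq_congr _ fun i hi => ?_
    rw [List.reverse_cons, List.getD_append _ _ _ _ (by rwa [List.length_reverse])]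

lemma nilRing_old (h : NilRing C X) : Spread.NilRing C X := by
  obtain ⟨N, hN⟩ := h
  refine ⟨N, fun l hl hh => ?_⟩
  rw [compList_eq, hl]
  refine hN _ fun i => ?_
  by_cases hi : i < l.reverse.length
  · rw [List.getD_eq_getElem _ _ hi]
    exact hh _ (List.mem_reverse.mp (List.getElem_mem hi))
  · rw [List.getD_eq_default _ _ (not_lt.mp hi)]
    exact ⟨(CHiL (X.prod X) X.dim).zero_mem, (C.cl (X.prod X)).map_zero⟩

lemma prodSeq_const (γ : CH (X.prod X)) (n : ℕ) : prodSeq C (fun _ => γ) n = C.pow γ n := by
  induction n with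
  | zero => rfl
  | succ n ih =>
    change C.comp (prodSeq C (fun _ => γ) n) γ = C.comp (C.pow γ n) γ
    rw [ih]

lemma nilHom_iff : NilHom C X ↔ Desc.NilHom C X := by
  constructor
  · intro h γ hγ h0
    obtain ⟨n, hn⟩ := h γ ⟨hγ, h0⟩
    exact ⟨n, by rw [← prodSeq_const, hn]⟩
  · intro h γ hγ
    obtain ⟨n, hn⟩ := h γ hγ.1 hγ.2
    exact ⟨n, by rw [prodSeq_const, hn]⟩

lemma isCK_iff {π : ℕ → CH (X.prod X)} : IsCK C X π ↔ C.IsCK X π :=
  ⟨fun h => ⟨h.mem, h.zero, h.idem, h.orth, h.sum, h.act_same, h.act_other⟩,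
    fun h => ⟨h.mem, h.zero, h.idem, h.orth, h.sum, h.act_same, h.act_other⟩⟩

lemma hasKunneth_iff : HasKunneth C X ↔ Helper11.Murre.HasKunneth C X := Iff.rfl

lemma hasLefschetz_iff : HasLefschetz C X ↔ Helper11.Murre.HasLefschetz C X := Iff.rfl

lemma hasPicard_iff : HasPicard C X ↔ Helper11.Murre.HasPicard C X := Iff.rfl

end Chow

end

end Pool.Agent.Helper47.Zero
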