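import Mathlib
import Pool.Agent.Helper47.Zero.Bridge

/-!
# Consequences of the nilpotence of homologically trivial correspondences
-/

universe u v w

open CategoryTheory AlgebraicGeometry Limits

namespace Pool.Agent.Helper47.Zero

open Pool.Agent.Helper10 Pool.Agent.Helper10.SmProjVar Pool.Agent.Helper47.Chow
open Pool.Agent.Helper47.Desc

variable {K : Type u} [Field K] {L : Type v} [Field L] [CharZero L]
  {W : WeilCohomology.{u, v, w} K L} {C : ChowTheory W} {X : SmProjVar K}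

lemma eq_zero_of_idem (h : Desc.NilHom C X) (φ : CH (X.prod X)) (hφ : HomTriv C φ)
    (hφφ : C.comp φ φ = φ) : φ = 0 := by
  obtain ⟨n, hn⟩ := h φ hφ.1 hφ.2
  let x : Corr C X := ⟨φ, hφ.1⟩
  have hx : IsIdempotentElem x := Corr.ext hφφ
  have h1 : x ^ n = 0 := Corr.ext ((ChowTheory.pow_val x n).trans hn)
  have h2 : x = 0 := by
    have h3 : x ^ (n + 1) = x := hx.pow_succ_eq n
    rw [← h3, pow_succ, h1, zero_mul]
  exact congrArg Corr.val h2

theorem consequences (h : Desc.NilHom C X) :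
    NilHom C X ∧ (∀ φ : CH (X.prod X), HomTriv C φ → C.comp φ φ = φ → φ = 0) ∧
    (HasKunneth C X → ∃ π, IsCK C X π) ∧
    (∀ i π π', IsCK C X π → IsCK C X π' → C.MurreD X π i → C.MurreD X π' i) ∧
    (C.AlgebraicOffMiddle X → ∀ i, (∀ π, IsCK C X π → C.MurreD X π i) ↔
      (2 * i ≤ X.dim → ∀ a ∈ CHi X i, C.ops.cl X a = 0 → a = 0)) ∧
    (HasLefschetz C X → ∀ π, IsCK C X π →
      ((∀ i, 2 * i ≤ X.dim → C.MurreD X π i) → ∀ i, C.MurreD X π i) ∧
      (X.dim ≤ 3 → HasPicard C X → ∀ i, C.MurreD X π i)) := by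
  refine ⟨nilHom_iff.mpr h, eq_zero_of_idem h, fun hK => ?_, fun i π π' hπ hπ' hD =>
    Helper47.Desc.murreD_of_nilHom h i (isCK_iff.mp hπ) (isCK_iff.mp hπ') hD, fun hA i => ?_,
    fun hL π hπ => ⟨Helper11.Murre.murreD_of_half h hL (isCK_iff.mp hπ), fun hd hP =>
      Helper11.Murre.murreD_of_dim_le_three h hL hP hd (isCK_iff.mp hπ)⟩⟩
  · obtain ⟨π, hπ⟩ := Helper11.Murre.exists_isCK_of_kunneth h hK
    exact ⟨π, isCK_iff.mpr hπ⟩
  · rw [← Helper47.Desc.offMiddle_of_nilHom h hA i]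
    exact ⟨fun h' π hπ => h' π (isCK_iff.mpr hπ), fun h' π hπ => h' π (isCK_iff.mp hπ)⟩

end Pool.Agent.Helper47.Zero
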