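import Mathlib
import Pool.Agent.Helper47.Zero.Defs

/-!
# Correspondences defined over a subfield: the definitions used in the statements
-/

universe u v w

open CategoryTheory AlgebraicGeometry Limits

namespace Pool.Agent.Helper47.Zero

open Pool.Agent.Helper10 Pool.Agent.Helper10.SmProjVar Pool.Agent.Helper47.Chow

noncomputable section

variable {F K : Type u} [Field F] [Field K] {L : Type v} [Field L] [CharZero L]
  {W : WeilCohomology.{u, v, w} K L}

/-- For `Y = N ×_F K` with the projection `θ` to `N`: the sum of the points of `Y` over `u` which
have the same dimension as `u`.  These are the generic points of the base change of the subvariety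
with generic point `u`, which all have the same multiplicity. -/
def baseChange {Y : SmProjVar K} {N : SmProjVar F} (θ : Y.toOver.left ⟶ N.toOver.left)
    (u : N.Pt) : CH Y :=
  ∑ᶠ y : {y : Y.Pt // img θ y = u ∧ Y.pointDim y = N.pointDim u}, ptCls Y y.1

/-- `γ` is a combination of base changes of subvarieties of `N`. -/
def IsRat {Y : SmProjVar K} {N : SmProjVar F} (θ : Y.toOver.left ⟶ N.toOver.left)
    (γ : CH Y) : Prop :=
  γ ∈ Submodule.span ℚ (Set.range (baseChange θ))

variable {N : SmProjVar F} (C : ChowTheory W) {X : SmProjVar K}
  (θ : (X.prod X).toOver.left ⟶ N.toOver.left)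

/-- The homologically trivial self-correspondences of degree zero of `X` which are defined over
`F` form a nilpotent ring. -/
def RatNilRing : Prop :=
  ∃ N : ℕ, ∀ γ : ℕ → CH (X.prod X), (∀ i, HomTriv C (γ i) ∧ IsRat θ (γ i)) → prodSeq C γ N = 0

/-- The self-correspondences of degree zero of `X` which are defined over `F` span a
finite-dimensional space. -/
def RatFinite : Prop :=
  ∃ s : Set (CH (X.prod X)), s.Finite ∧ ∀ γ ∈ CHi (X.prod X) X.dim, IsRat θ γ →
    γ ∈ Submodule.span ℚ s

/-- `X` has no phantoms defined over `F`: homologically trivial idempotent correspondences. -/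
def RatNoPhantom : Prop :=
  ∀ γ : CH (X.prod X), HomTriv C γ → IsRat θ γ → C.comp γ γ = γ → γ = 0

end

end Pool.Agent.Helper47.Zero
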