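import Mathlib
import Pool.Agent.Helper47.Zero.RatDefs
import Pool.Agent.Helper47.Zero.Bridge
import Pool.Agent.Helper47.Spread2.Rat

/-!
# Nilpotence descends to the field of definition
-/

universe u v w

open CategoryTheory AlgebraicGeometry Limits

namespace Pool.Agent.Helper47.Zero

open Pool.Agent.Helper10 Pool.Agent.Helper10.SmProjVar Pool.Agent.Helper47.Chow
open Pool.Agent.Helper47.Desc

noncomputable section

variable {F K : Type u} [Field F] [Field K] [Algebra F K] {L : Type v} [Field L] [CharZero L]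
  {W : WeilCohomology.{u, v, w} K L}

lemma isRat_iff {Y : SmProjVar K} {N : SmProjVar F} (θ : Y.toOver.left ⟶ N.toOver.left)
    (γ : CH Y) : IsRat θ γ ↔ γ ∈ Spread.ratF θ := Iff.rfl

theorem nilHom_of_rat {M₀ : SmProjVar F} {M : SmProjVar K} [IsAlgClosed K]
    (pM : M.toOver.left ⟶ M₀.toOver.left)
    (hM : IsPullback pM M.toOver.hom M₀.toOver.hom (specMap F K))
    (θ : (M.prod M).toOver.left ⟶ (M₀.prod M₀).toOver.left)
    (h1 : θ ≫ (fst M₀ M₀).left = (fst M M).left ≫ pM)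
    (h2 : θ ≫ (snd M₀ M₀).left = (snd M M).left ≫ pM) {C : ChowTheory W}
    (hC : IsEquivariant C)
    (h : RatNilRing C θ ∨ RatFinite θ ∧ RatNoPhantom C θ) : Desc.NilHom C M := by
  have hθ : θ = Spread.theta pM hM.w := by
    apply hom_ext_sch
    · rw [h1, Spread.theta_fst]
    · rw [h2, Spread.theta_snd]
  subst hθ
  rcases h with h | ⟨h3, h4⟩
  · refine Spread.nilHom_of_rat pM hM hC ?_
    obtain ⟨N, hN⟩ := h
    refine ⟨N, fun l hl hh => ?_⟩
    rw [compList_eq, hl]
    refine hN _ fun i => ?_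
    by_cases hi : i < l.reverse.length
    · rw [List.getD_eq_getElem _ _ hi]
      obtain ⟨h5, h6, h7⟩ := hh _ (List.mem_reverse.mp (List.getElem_mem hi))
      exact ⟨⟨h6, h7⟩, h5⟩
    · rw [List.getD_eq_default _ _ (not_lt.mp hi)]
      exact ⟨⟨(CHiL (M.prod M) M.dim).zero_mem, (C.cl (M.prod M)).map_zero⟩,
        Submodule.zero_mem _⟩
  · refine Spread.nilHom_of_finite_rank pM hM hC ?_ ?_
    · obtain ⟨s, hs, hs'⟩ := h3
      exact ⟨s, hs, fun γ hγ hγ' => hs' γ hγ' hγ⟩
    · intro γ hγ hγ' h0 hc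
      exact h4 γ ⟨hγ', h0⟩ hγ hc

end

end Pool.Agent.Helper47.Zero
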